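import Mathlib

set_option autoImplicit false

open Filter Topology Set Metric

namespace Pool.Agent.Results.MP_051359_an.AnnulusEmpty

/-- the `n`-th partial sum `S_n(f) = ∑_{k ≤ n} a_k z^k` of the Taylor series of `f` at `0` -/
noncomputable def partialSum (f : ℂ → ℂ) (n : ℕ) (z : ℂ) : ℂ :=
  ∑ k ∈ Finset.range (n + 1), iteratedDeriv k f 0 / (k.factorial : ℂ) * z ^ k

/-- the space `A(K)`: continuous functions on `K` that are holomorphic in the interior of `K`
(with the topology of `C(K, ℂ)`, which for compact `K` is that of the supremum norm) -/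
def A (K : Set ℂ) : Set C(K, ℂ) :=
  {g | ∃ G : ℂ → ℂ, DifferentiableOn ℂ G (interior K) ∧ ∀ z : K, G z = g z}

lemma differentiable_partialSum (f : ℂ → ℂ) (n : ℕ) : Differentiable ℂ (partialSum f n) := by
  unfold partialSum
  fun_prop

/-- the restriction of `S_n(f)` to `K`, as an element of `A(K)` -/
noncomputable def restr (f : ℂ → ℂ) (K : Set ℂ) (n : ℕ) : A K :=
  ⟨⟨fun z => partialSum f n z, by
    exact (differentiable_partialSum f n).continuous.comp continuous_subtype_val⟩,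
    ⟨partialSum f n, (differentiable_partialSum f n).differentiableOn, fun _ => rfl⟩⟩

/-- the lower density `liminf_N #(E ∩ {0, …, N}) / (N + 1)` of a set of natural numbers -/
noncomputable def lowerDensity (E : Set ℕ) : ℝ :=
  liminf (fun N : ℕ => ((E ∩ Iic N).ncard : ℝ) / (N + 1)) atTop

/-- the set `FU(𝔻, K)` of `K`-frequently universal Taylor series -/
def FU (K : Set ℂ) : Set (ℂ → ℂ) :=
  {f | DifferentiableOn ℂ f (ball 0 1) ∧
    ∀ U : Set (A K), IsOpen U → U.Nonempty → 0 < lowerDensity {n | restr f K n ∈ U}}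

/-- the family `ℳ(r, R)` of compact sets `K ⊆ ℂ ∖ 𝔻` with connected complement that are contained
in the closed annulus `r ≤ |z| ≤ R` -/
def fam (r R : ℝ) : Set (Set ℂ) :=
  {K | IsCompact K ∧ K ⊆ (ball 0 1)ᶜ ∧ IsConnected Kᶜ ∧ ∀ z ∈ K, r ≤ ‖z‖ ∧ ‖z‖ ≤ R}

/-! ### Coefficients -/

/-- the partial sum as a polynomial -/
noncomputable def poly (f : ℂ → ℂ) (n : ℕ) : Polynomial ℂ :=
  ∑ k ∈ Finset.range (n + 1), Polynomial.C (iteratedDeriv k f 0 / (k.factorial : ℂ)) * Polynomial.X ^ k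

/-- the `k`-th Taylor coefficient -/
noncomputable def co (f : ℂ → ℂ) (k : ℕ) : ℂ := iteratedDeriv k f 0 / (k.factorial : ℂ)

lemma eval_poly (f : ℂ → ℂ) (n : ℕ) (z : ℂ) : (poly f n).eval z = partialSum f n z := by
  simp [poly, partialSum, Polynomial.eval_finsetSum]

lemma coeff_poly (f : ℂ → ℂ) {n k : ℕ} (hk : k ≤ n) : (poly f n).coeff k = co f k := by
  simp only [poly, Polynomial.finsetSum_coeff, Polynomial.coeff_C_mul, Polynomial.coeff_X_pow]
  rw [Finset.sum_eq_single k]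
  · simp [co]
  · intro b _ hb
    simp [hb.symm]
  · intro h
    exact absurd (Finset.mem_range.2 (by omega)) h

lemma iteratedDeriv_poly (P : Polynomial ℂ) (k : ℕ) :
    iteratedDeriv k (fun z => P.eval z) = fun z => ((Polynomial.derivative^[k]) P).eval z := by
  induction k with
  | zero => simp
  | succ k ih =>
    rw [iteratedDeriv_succ, ih]
    funext z
    rw [Polynomial.deriv, Function.iterate_succ_apply']

lemma coeff_eq (P : Polynomial ℂ) (k : ℕ) :
    iteratedDeriv k (fun z => P.eval z) 0 = (k.factorial : ℂ) * P.coeff k := by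
  rw [iteratedDeriv_poly]
  simp only
  rw [← Polynomial.coeff_zero_eq_eval_zero, Polynomial.coeff_iterate_derivative]
  simp [Nat.descFactorial_self]

/-- Cauchy estimate for the coefficients of a partial sum -/
lemma norm_co_le {f : ℂ → ℂ} {n k : ℕ} (hk : k ≤ n) {s C : ℝ} (hs : 0 < s)
    (hC : ∀ z, ‖z‖ ≤ s → ‖partialSum f n z‖ ≤ C) : ‖co f k‖ ≤ C / s ^ k := by
  have h1 := Complex.norm_iteratedDeriv_le_of_forall_mem_sphere_norm_le (c := 0) (R := s) (C := C)
    (f := fun z => (poly f n).eval z) k hs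
    (by exact (poly f n).differentiable.diffContOnCl) (fun z hz => by
      rw [eval_poly]
      exact hC z (by simpa using (mem_sphere_zero_iff_norm.1 hz).le))
  rw [coeff_eq, coeff_poly f hk, norm_mul, Complex.norm_natCast] at h1
  have h2 : (0 : ℝ) < k.factorial := by exact_mod_cast Nat.factorial_pos k
  rw [mul_div_assoc] at h1
  exact le_of_mul_le_mul_left h1 h2

/-- the coefficients of a holomorphic function on the unit disc grow at most like `2^k` -/
lemma exists_co_bound {f : ℂ → ℂ} (hf : DifferentiableOn ℂ f (ball 0 1)) :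
    ∃ C : ℝ, 1 ≤ C ∧ ∀ k, ‖co f k‖ ≤ C * 2 ^ k := by
  have hsub : closedBall (0 : ℂ) (1 / 2) ⊆ ball 0 1 := closedBall_subset_ball (by norm_num)
  obtain ⟨C, hC⟩ := (isCompact_closedBall (0 : ℂ) (1 / 2)).exists_bound_of_continuousOn
    (hf.continuousOn.mono hsub)
  refine ⟨max C 1, le_max_right _ _, fun k => ?_⟩
  have h1 := Complex.norm_iteratedDeriv_le_of_forall_mem_sphere_norm_le (c := 0) (R := 1 / 2)
    (C := max C 1) (f := f) k (by norm_num)
    ((hf.mono hsub).diffContOnCl_ball (by rfl)) (fun z hz =>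
      (hC z (sphere_subset_closedBall hz)).trans (le_max_left _ _))
  have h2 : (0 : ℝ) < k.factorial := by exact_mod_cast Nat.factorial_pos k
  unfold co
  rw [norm_div, Complex.norm_natCast, div_le_iff₀ h2]
  refine h1.trans (le_of_eq ?_)
  rw [one_div, inv_pow, div_inv_eq_mul]
  ring

/-- crude bound for the partial sums -/
lemma crude {f : ℂ → ℂ} {C R : ℝ} (hC : 1 ≤ C) (hco : ∀ k, ‖co f k‖ ≤ C * 2 ^ k) (hR : 1 ≤ R)
    (n : ℕ) {z : ℂ} (hz : ‖z‖ ≤ R) : ‖partialSum f n z‖ ≤ C * (4 * R) ^ n := by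
  have h1 : ‖partialSum f n z‖ ≤ ∑ k ∈ Finset.range (n + 1), C * (2 * R) ^ n := by
    refine (norm_sum_le _ _).trans (Finset.sum_le_sum fun k hk => ?_)
    have hkn : k ≤ n := by have := Finset.mem_range.1 hk; omega
    rw [norm_mul, norm_pow]
    calc ‖iteratedDeriv k f 0 / (k.factorial : ℂ)‖ * ‖z‖ ^ k ≤ (C * 2 ^ k) * R ^ k :=
          mul_le_mul (hco k) (pow_le_pow_left₀ (norm_nonneg _) hz k) (by positivity) (by positivity)
      _ = C * (2 * R) ^ k := by rw [mul_pow]; ring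
      _ ≤ C * (2 * R) ^ n :=
          mul_le_mul_of_nonneg_left (pow_le_pow_right₀ (by linarith) hkn) (by linarith)
  refine h1.trans ?_
  rw [Finset.sum_const, Finset.card_range, nsmul_eq_mul]
  have h2 : ((n + 1 : ℕ) : ℝ) ≤ 2 ^ n := by
    have : n + 1 ≤ 2 ^ n := Nat.lt_two_pow_self
    exact_mod_cast this
  have h3 : (4 * R) ^ n = 2 ^ n * (2 * R) ^ n := by rw [← mul_pow]; congr 1; ring
  rw [h3]
  have h4 : (0 : ℝ) ≤ C * (2 * R) ^ n := by positivity
  nlinarith

/-- the two constants estimate with the gap near the point `R` of the circle `|z| = R` -/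
lemma two_constants {p : ℂ → ℂ} (hp : Differentiable ℂ p) {R s q M : ℝ} (hs : 0 < s) (hsR : s < R)
    {N : ℕ} (hM : M * q ^ N ≤ 1 / 4)
    (h1 : ∀ z, ‖z‖ = R → ‖p z‖ ≤ M)
    (h2 : ∀ z : ℂ, ‖z‖ = R → 2 * R * q ≤ ‖z - (R : ℂ)‖ → ‖p z‖ ≤ 1 / 4) :
    ∀ z, ‖z‖ ≤ s → ‖p z‖ ≤ 1 / 4 * (2 * R / (R - s)) ^ N := by
  have hR : 0 < R := hs.trans hsR
  have hR0 : (R : ℂ) ≠ 0 := by exact_mod_cast hR.ne'
  set g : ℂ → ℂ := fun z => p z * ((z - R) / (2 * R)) ^ N with hg
  have hgd : Differentiable ℂ g := by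
    rw [hg]; fun_prop
  have hbd : ∀ z ∈ frontier (ball (0 : ℂ) R), ‖g z‖ ≤ 1 / 4 := by
    intro z hz
    have hz' : ‖z‖ = R := by
      rw [frontier_ball (0 : ℂ) hR.ne'] at hz
      simpa using hz
    have h3 : ‖(z - R) / (2 * (R : ℂ))‖ = ‖z - R‖ / (2 * R) := by
      rw [norm_div, norm_mul, Complex.norm_real, Real.norm_of_nonneg hR.le]
      norm_num
    have h4 : ‖z - R‖ ≤ 2 * R := by
      refine (norm_sub_le _ _).trans ?_
      rw [hz', Complex.norm_real, Real.norm_of_nonneg hR.le]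
      linarith
    rw [hg]
    simp only
    rw [norm_mul, norm_pow, h3]
    have h5 : ‖z - R‖ / (2 * R) ≤ 1 := by
      rw [div_le_one (by positivity)]; exact h4
    by_cases hc : 2 * R * q ≤ ‖z - R‖
    · have h6 := h2 z hz' hc
      have h7 : (‖z - R‖ / (2 * R)) ^ N ≤ 1 := pow_le_one₀ (by positivity) h5
      nlinarith [norm_nonneg (p z)]
    · push Not at hc
      have h6 : ‖z - R‖ / (2 * R) ≤ q := by
        rw [div_le_iff₀ (by positivity)]; linarith
      have h7 : (‖z - R‖ / (2 * R)) ^ N ≤ q ^ N := pow_le_pow_left₀ (by positivity) h6 N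
      calc ‖p z‖ * (‖z - R‖ / (2 * R)) ^ N ≤ M * q ^ N :=
            mul_le_mul (h1 z hz') h7 (by positivity) ((norm_nonneg _).trans (h1 z hz'))
        _ ≤ 1 / 4 := hM
  intro z hz
  have hzR : ‖z‖ < R := hz.trans_lt hsR
  have hmax := Complex.norm_le_of_forall_mem_frontier_norm_le isBounded_ball
    hgd.diffContOnCl hbd (subset_closure (mem_ball_zero_iff.2 hzR))
  have h3 : ‖(z - R) / (2 * (R : ℂ))‖ = ‖z - R‖ / (2 * R) := by
    rw [norm_div, norm_mul, Complex.norm_real, Real.norm_of_nonneg hR.le]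
    norm_num
  have h4 : R - s ≤ ‖z - R‖ := by
    have := norm_sub_norm_le (R : ℂ) z
    rw [norm_sub_rev, Complex.norm_real, Real.norm_of_nonneg hR.le] at this
    linarith
  have h5 : ((R - s) / (2 * R)) ^ N ≤ (‖z - R‖ / (2 * R)) ^ N :=
    pow_le_pow_left₀ (div_nonneg (by linarith) (by positivity))
      (div_le_div_of_nonneg_right h4 (by positivity)) N
  rw [hg] at hmax
  simp only at hmax
  rw [norm_mul, norm_pow, h3] at hmax
  have h6 : ‖p z‖ * ((R - s) / (2 * R)) ^ N ≤ 1 / 4 :=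
    (mul_le_mul_of_nonneg_left h5 (norm_nonneg _)).trans hmax
  have h7 : (0 : ℝ) < ((R - s) / (2 * R)) ^ N := by
    have : 0 < R - s := by linarith
    positivity
  have h8 : (2 * R / (R - s)) ^ N = (((R - s) / (2 * R)) ^ N)⁻¹ := by
    rw [← inv_pow, inv_div]
  rw [h8, ← div_eq_mul_inv, le_div_iff₀ h7]
  exact h6

/-- If `S_n(f)` is small on the circle `|z| = R` off a small gap, then the partial sums `S_k(f)` at
the point `r < R` hardly change for `k` between a small multiple of `n` and `n`. -/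
lemma block {f : ℂ → ℂ} {r R : ℝ} (hr : 1 ≤ r) (hrR : r < R) (hf : DifferentiableOn ℂ f (ball 0 1)) :
    ∃ c0 c1 c2 : ℕ, ∀ m : ℕ, 0 < m → ∀ n : ℕ,
      (∀ z : ℂ, ‖z‖ = R → 2 * R * ((4 * R) ^ m)⁻¹ ≤ ‖z - (R : ℂ)‖ → ‖partialSum f n z‖ ≤ 1 / 4) →
      ∀ k : ℕ, c1 * ((n + c0) / m + 1) + c2 ≤ k → k ≤ n →
        ‖partialSum f n r - partialSum f k r‖ < 1 / 4 := by
  obtain ⟨C, hC, hco⟩ := exists_co_bound hf
  have hR1 : 1 < R := by linarith
  have h4R : 1 < 4 * R := by linarith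
  obtain ⟨c0, hc0⟩ : ∃ c0 : ℕ, 4 * C < (4 * R) ^ c0 := pow_unbounded_of_one_lt _ h4R
  obtain ⟨s, hs⟩ : ∃ s : ℝ, s = (r + R) / 2 := ⟨_, rfl⟩
  have hs0 : 0 < s := by linarith
  have hsR : s < R := by linarith
  have hrs : r < s := by linarith
  obtain ⟨H, hH⟩ : ∃ H : ℝ, H = 2 * R / (R - s) := ⟨_, rfl⟩
  have hH0 : 0 < H := by
    rw [hH]; exact div_pos (by linarith) (by linarith)
  obtain ⟨θ, hθ⟩ : ∃ θ : ℝ, θ = r / s := ⟨_, rfl⟩
  have hθ0 : 0 < θ := by rw [hθ]; positivity
  have hθ1 : θ < 1 := by rw [hθ, div_lt_one hs0]; exact hrs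
  obtain ⟨c1, hc1⟩ : ∃ c1 : ℕ, θ ^ c1 < H⁻¹ := exists_pow_lt_of_lt_one (by positivity) hθ1
  obtain ⟨c2, hc2⟩ : ∃ c2 : ℕ, θ ^ c2 < 1 - θ := exists_pow_lt_of_lt_one (by linarith) hθ1
  refine ⟨c0, c1, c2, fun m hm n hn k hk hkn => ?_⟩
  obtain ⟨N, hN⟩ : ∃ N : ℕ, N = (n + c0) / m + 1 := ⟨_, rfl⟩
  rw [← hN] at hk
  have hmN : n + c0 ≤ m * N := by
    rw [hN, mul_add, mul_one]
    have := Nat.div_add_mod (n + c0) m
    have h2 := Nat.mod_lt (n + c0) hm
    omega
  have hM : C * (4 * R) ^ n * ((4 * R) ^ m)⁻¹ ^ N ≤ 1 / 4 := by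
    rw [inv_pow, ← pow_mul, ← div_eq_mul_inv, div_le_iff₀ (by positivity)]
    have h1 : (4 * R) ^ (n + c0) ≤ (4 * R) ^ (m * N) := pow_le_pow_right₀ h4R.le hmN
    rw [pow_add] at h1
    have h2 : (0 : ℝ) < (4 * R) ^ n := by positivity
    nlinarith
  have hbound := two_constants (differentiable_partialSum f n) hs0 hsR hM
    (fun z hz => crude hC hco hR1.le n hz.le) hn
  rw [← hH] at hbound
  have hcoef : ∀ j ≤ n, ‖co f j‖ ≤ 1 / 4 * H ^ N / s ^ j := fun j hj => norm_co_le hj hs0 hbound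
  have hdiff : partialSum f n r - partialSum f k r =
      ∑ j ∈ Finset.Ico (k + 1) (n + 1), co f j * (r : ℂ) ^ j := by
    unfold partialSum
    rw [← Finset.sum_Ico_eq_sub _ (by omega : k + 1 ≤ n + 1)]
    rfl
  rw [hdiff]
  have h1 : ‖∑ j ∈ Finset.Ico (k + 1) (n + 1), co f j * (r : ℂ) ^ j‖ ≤
      1 / 4 * H ^ N * (θ ^ (k + 1) / (1 - θ)) := by
    calc ‖∑ j ∈ Finset.Ico (k + 1) (n + 1), co f j * (r : ℂ) ^ j‖
        ≤ ∑ j ∈ Finset.Ico (k + 1) (n + 1), 1 / 4 * H ^ N * θ ^ j := by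
          refine (norm_sum_le _ _).trans (Finset.sum_le_sum fun j hj => ?_)
          have hjn : j ≤ n := by have := (Finset.mem_Ico.1 hj).2; omega
          rw [norm_mul, norm_pow, Complex.norm_real, Real.norm_of_nonneg (by linarith : (0 : ℝ) ≤ r)]
          calc ‖co f j‖ * r ^ j ≤ 1 / 4 * H ^ N / s ^ j * r ^ j :=
                mul_le_mul_of_nonneg_right (hcoef j hjn) (by positivity)
            _ = 1 / 4 * H ^ N * θ ^ j := by rw [hθ, div_pow]; ring
      _ = 1 / 4 * H ^ N * ∑ j ∈ Finset.Ico (k + 1) (n + 1), θ ^ j := by rw [Finset.mul_sum]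
      _ ≤ 1 / 4 * H ^ N * (θ ^ (k + 1) / (1 - θ)) :=
          mul_le_mul_of_nonneg_left (geom_sum_Ico_le_of_lt_one hθ0.le hθ1) (by positivity)
  refine h1.trans_lt ?_
  have h2 : θ ^ (k + 1) ≤ θ ^ (c1 * N + c2 + 1) :=
    pow_le_pow_of_le_one hθ0.le hθ1.le (by omega)
  have h3 : H ^ N * θ ^ (c1 * N + c2 + 1) < 1 - θ := by
    have e : H ^ N * θ ^ (c1 * N + c2 + 1) = (H * θ ^ c1) ^ N * θ ^ c2 * θ := by
      rw [pow_succ θ, pow_add, pow_mul, mul_pow]; ring
    rw [e]
    have h4 : H * θ ^ c1 ≤ 1 := by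
      have := mul_le_mul_of_nonneg_left hc1.le hH0.le
      rwa [mul_inv_cancel₀ hH0.ne'] at this
    have h5 : (H * θ ^ c1) ^ N ≤ 1 := pow_le_one₀ (by positivity) h4
    have h6 : 0 < θ ^ c2 := by positivity
    calc (H * θ ^ c1) ^ N * θ ^ c2 * θ ≤ 1 * θ ^ c2 * 1 :=
          mul_le_mul (mul_le_mul_of_nonneg_right h5 h6.le) hθ1.le hθ0.le (by positivity)
      _ < 1 - θ := by linarith
  have h4 : H ^ N * (θ ^ (k + 1) / (1 - θ)) < 1 := by
    rw [← mul_div_assoc, div_lt_one (by linarith)]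
    exact (mul_le_mul_of_nonneg_left h2 (by positivity)).trans_lt h3
  nlinarith

/-! ### Densities -/

lemma ncard_le (E : Set ℕ) (n : ℕ) : ((E ∩ Iic n).ncard : ℝ) ≤ n + 1 := by
  have h1 : (E ∩ Iic n).ncard ≤ (Iic n).ncard := ncard_le_ncard inter_subset_right (finite_Iic n)
  have h2 : (Iic n).ncard = n + 1 := by
    rw [← Finset.coe_Iic, ncard_coe_finset, Nat.card_Iic]
  rw [h2] at h1
  exact_mod_cast h1

lemma density_pos {E : Set ℕ} (h : 0 < lowerDensity E) :
    ∃ c : ℝ, 0 < c ∧ ∀ᶠ n : ℕ in atTop, c * (n + 1) ≤ ((E ∩ Iic n).ncard : ℝ) := by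
  refine ⟨lowerDensity E / 2, by linarith, ?_⟩
  have h1 : lowerDensity E / 2 < lowerDensity E := by linarith
  have h2 := eventually_lt_of_lt_liminf (f := atTop)
    (u := fun N : ℕ => ((E ∩ Iic N).ncard : ℝ) / (N + 1)) h1
    (isBoundedUnder_of ⟨0, fun n => by positivity⟩)
  filter_upwards [h2] with n hn
  rw [lt_div_iff₀ (by positivity)] at hn
  exact hn.le

lemma infinite_of_density {E : Set ℕ} (h : 0 < lowerDensity E) (N : ℕ) : ∃ n ∈ E, N ≤ n := by
  obtain ⟨c, hc, hev⟩ := density_pos h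
  by_contra hcon
  push Not at hcon
  obtain ⟨n, hn1, hn2⟩ := (hev.and (eventually_gt_atTop ⌈(N : ℝ) / c⌉₊)).exists
  have h1 : (E ∩ Iic n).ncard ≤ (Iio N).ncard := ncard_le_ncard (fun k hk => hcon k hk.1) (finite_Iio N)
  have h2 : (Iio N).ncard = N := by
    rw [← Finset.coe_Iio, ncard_coe_finset, Nat.card_Iio]
  rw [h2] at h1
  have h3 : ((E ∩ Iic n).ncard : ℝ) ≤ N := by exact_mod_cast h1
  have h4 : (N : ℝ) / c < n := (Nat.le_ceil _).trans_lt (by exact_mod_cast hn2)
  rw [div_lt_iff₀ hc] at h4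
  nlinarith

/-! ### The compact sets -/

lemma isConnected_outside {R : ℝ} (hR : 0 < R) : IsConnected {z : ℂ | R < ‖z‖} := by
  have h1 : {z : ℂ | R < ‖z‖} = Complex.exp '' {w : ℂ | Real.log R < w.re} := by
    ext z
    constructor
    · intro hz
      have hz' : R < ‖z‖ := hz
      have hz0 : z ≠ 0 := by
        rintro rfl
        rw [norm_zero] at hz'
        linarith
      refine ⟨Complex.log z, ?_, Complex.exp_log hz0⟩
      show Real.log R < (Complex.log z).re
      rw [Complex.log_re]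
      exact Real.log_lt_log hR hz'
    · rintro ⟨w, hw, rfl⟩
      have hw' : Real.log R < w.re := hw
      show R < ‖Complex.exp w‖
      rw [Complex.norm_exp, ← Real.log_lt_iff_lt_exp hR]
      exact hw'
  rw [h1]
  refine IsConnected.image ⟨⟨((Real.log R + 1 : ℝ) : ℂ), ?_⟩, ?_⟩ _ Complex.continuous_exp.continuousOn
  · show Real.log R < ((Real.log R + 1 : ℝ) : ℂ).re
    rw [Complex.ofReal_re]; linarith
  · exact (convex_halfSpace_re_gt _).isPreconnected

/-- the circle `|z| = R` without a small arc at `R` -/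
def arc (R ε : ℝ) : Set ℂ := {z | ‖z‖ = R ∧ ε ≤ ‖z - (R : ℂ)‖}

lemma isCompact_arc (R ε : ℝ) : IsCompact (arc R ε) := by
  refine (isCompact_sphere (0 : ℂ) R).of_isClosed_subset ?_ fun z hz => by simpa using hz.1
  exact (isClosed_eq continuous_norm continuous_const).inter
    (isClosed_le continuous_const (continuous_id.sub continuous_const).norm)

lemma isConnected_arc_compl {R ε : ℝ} (hR : 0 < R) (hε : 0 < ε) : IsConnected (arc R ε)ᶜ := by
  have h1 : (arc R ε)ᶜ = (ball (0 : ℂ) R ∪ ball (R : ℂ) ε) ∪ {z : ℂ | R < ‖z‖} := by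
    ext z
    simp only [arc, mem_compl_iff, mem_ofPred_eq, mem_union, mem_ball, dist_eq_norm, sub_zero,
      not_and, not_le]
    constructor
    · intro h
      rcases lt_trichotomy ‖z‖ R with h2 | h2 | h2
      · exact Or.inl (Or.inl h2)
      · exact Or.inl (Or.inr (h h2))
      · exact Or.inr h2
    · rintro ((h | h) | h) h2
      · linarith
      · exact h
      · linarith
  have hm : 0 < min (ε / 2) (R / 2) := by positivity
  have hm1 : min (ε / 2) (R / 2) ≤ ε / 2 := min_le_left _ _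
  have hm2 : min (ε / 2) (R / 2) ≤ R / 2 := min_le_right _ _
  rw [h1]
  have hA : IsConnected (ball (0 : ℂ) R ∪ ball (R : ℂ) ε) := by
    refine IsConnected.union ⟨((R - min (ε / 2) (R / 2) : ℝ) : ℂ), ?_, ?_⟩
      ((convex_ball _ _).isConnected ⟨0, mem_ball_self hR⟩)
      ((convex_ball _ _).isConnected ⟨_, mem_ball_self hε⟩)
    · rw [mem_ball_zero_iff, Complex.norm_real, Real.norm_of_nonneg (by linarith)]
      linarith
    · rw [mem_ball, dist_eq_norm, ← Complex.ofReal_sub, Complex.norm_real, Real.norm_eq_abs]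
      rw [show R - min (ε / 2) (R / 2) - R = -min (ε / 2) (R / 2) by ring, abs_neg, abs_of_pos hm]
      linarith
  refine IsConnected.union ⟨((R + min (ε / 2) (R / 2) : ℝ) : ℂ), ?_, ?_⟩ hA (isConnected_outside hR)
  · right
    rw [mem_ball, dist_eq_norm, ← Complex.ofReal_sub, Complex.norm_real, Real.norm_eq_abs]
    rw [show R + min (ε / 2) (R / 2) - R = min (ε / 2) (R / 2) by ring, abs_of_pos hm]
    linarith
  · show R < ‖((R + min (ε / 2) (R / 2) : ℝ) : ℂ)‖
    rw [Complex.norm_real, Real.norm_of_nonneg (by linarith)]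
    linarith

lemma arc_mem_fam {r R ε : ℝ} (hr : 1 ≤ r) (hrR : r < R) (hε : 0 < ε) : arc R ε ∈ fam r R := by
  refine ⟨isCompact_arc R ε, ?_, isConnected_arc_compl (by linarith) hε, ?_⟩
  · intro z hz hz'
    have h1 : ‖z‖ = R := hz.1
    rw [mem_ball_zero_iff] at hz'
    linarith
  · intro z hz
    have h1 : ‖z‖ = R := hz.1
    constructor <;> linarith

lemma singleton_mem_fam {r R : ℝ} (hr : 1 ≤ r) (hrR : r < R) : {(r : ℂ)} ∈ fam r R := by
  have hn : ‖(r : ℂ)‖ = r := by rw [Complex.norm_real, Real.norm_of_nonneg (by linarith)]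
  refine ⟨isCompact_singleton, ?_, ?_, ?_⟩
  · intro z hz hz'
    rw [mem_singleton_iff.1 hz, mem_ball_zero_iff, hn] at hz'
    linarith
  · exact isConnected_compl_singleton_of_one_lt_rank (by rw [Complex.rank_real_complex]; exact Nat.one_lt_ofNat) _
  · intro z hz
    rw [mem_singleton_iff.1 hz, hn]
    constructor <;> linarith

/-- frequent universality on a compact set gives a positive lower density of the `n` for which
`S_n(f)` is within `ε` of a constant `w` on `K` -/
lemma density_const {f : ℂ → ℂ} {K : Set ℂ} (hK : IsCompact K) (hf : f ∈ FU K) (w : ℂ) {ε : ℝ}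
    (hε : 0 < ε) : 0 < lowerDensity {n | ∀ z ∈ K, ‖partialSum f n z - w‖ < ε} := by
  have hKc : CompactSpace K := isCompact_iff_compactSpace.1 hK
  have h1 : IsOpen {g : C(K, ℂ) | MapsTo g univ (ball w ε)} :=
    ContinuousMap.isOpen_setOfPred_mapsTo isCompact_univ isOpen_ball
  have h2 : IsOpen {g : A K | MapsTo (g : C(K, ℂ)) univ (ball w ε)} := h1.preimage continuous_subtype_val
  have h3 := hf.2 _ h2 ⟨⟨ContinuousMap.const _ w, fun _ => w, differentiableOn_const _, fun _ => rfl⟩,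
    fun z _ => mem_ball_self hε⟩
  have h4 : {n | restr f K n ∈ {g : A K | MapsTo (g : C(K, ℂ)) univ (ball w ε)}} =
      {n | ∀ z ∈ K, ‖partialSum f n z - w‖ < ε} := by
    ext n
    constructor
    · intro h z hz
      have := h (mem_univ (⟨z, hz⟩ : K))
      rw [mem_ball, dist_eq_norm] at this
      exact this
    · intro h z _
      rw [mem_ball, dist_eq_norm]
      exact h z z.2
  rw [h4] at h3
  exact h3

/-- **Main result.**  For all `1 ≤ r < R < ∞` no `f ∈ H(𝔻)` is a `K`-frequently universal Taylor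
series for every compact set `K` (with connected complement) in the closed annulus
`r ≤ |z| ≤ R`. -/
theorem result : ∀ r R : ℝ, 1 ≤ r → r < R → (⋂ K ∈ fam r R, FU K) = ∅ := by
  intro r R hr hrR
  rw [eq_empty_iff_forall_notMem]
  intro f hf
  rw [mem_iInter₂] at hf
  have hfd : DifferentiableOn ℂ f (ball 0 1) := (hf _ (singleton_mem_fam hr hrR)).1
  obtain ⟨c0, c1, c2, hblock⟩ := block hr hrR hfd
  -- the two sets of indices
  have hsing : ∀ w : ℂ, {n | ∀ z ∈ ({(r : ℂ)} : Set ℂ), ‖partialSum f n z - w‖ < 1 / 2} =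
      {n | ‖partialSum f n r - w‖ < 1 / 2} := by
    intro w; ext n; simp
  have hd1 := density_const isCompact_singleton (hf _ (singleton_mem_fam hr hrR)) 1
    (ε := 1 / 2) (by norm_num)
  have hd2 := density_const isCompact_singleton (hf _ (singleton_mem_fam hr hrR)) (-1)
    (ε := 1 / 2) (by norm_num)
  rw [hsing] at hd1 hd2
  obtain ⟨a, ha, hev1⟩ := density_pos hd1
  obtain ⟨b, hb, hev2⟩ := density_pos hd2
  set c := min a b with hc
  have hc0 : 0 < c := lt_min ha hb
  obtain ⟨m, hm⟩ : ∃ m : ℕ, 2 * (c1 : ℝ) / c < m := exists_nat_gt _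
  have hm0 : 0 < m := by
    have : (0 : ℝ) ≤ 2 * (c1 : ℝ) / c := by positivity
    exact_mod_cast this.trans_lt hm
  have hmr : (0 : ℝ) < m := by exact_mod_cast hm0
  have hcm : (c1 : ℝ) / m ≤ c / 2 := by
    rw [div_lt_iff₀ hc0] at hm
    rw [div_le_iff₀ hmr]
    linarith
  -- indices for which the partial sum is small on the arc
  have hε : 0 < 2 * R * ((4 * R) ^ m)⁻¹ := by
    have : 0 < R := by linarith
    positivity
  have harc := density_const (isCompact_arc R _) (hf _ (arc_mem_fam hr hrR hε)) 0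
    (ε := 1 / 4) (by norm_num)
  obtain ⟨n1, hn1⟩ := eventually_atTop.1 hev1
  obtain ⟨n2, hn2⟩ := eventually_atTop.1 hev2
  obtain ⟨n3, hn3⟩ : ∃ n3 : ℕ, (c0 * (c / 2) + c1 + c2) / (c / 2) < n3 := exists_nat_gt _
  obtain ⟨n, hn, hnN⟩ := infinite_of_density harc (max (max n1 n2) n3)
  have hle1 := hn1 n (by omega)
  have hle2 := hn2 n (by omega)
  have hle3 : n3 ≤ n := by omega
  have hB := hblock m hm0 n (fun z hz1 hz2 => by
    have := hn z ⟨hz1, hz2⟩
    rw [sub_zero] at this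
    exact this.le)
  set T : ℕ := c1 * ((n + c0) / m + 1) + c2 with hT
  -- the number of exceptional indices is small
  have hTn : (T : ℝ) < c * (n + 1) := by
    have h1 : (((n + c0) / m : ℕ) : ℝ) ≤ ((n : ℝ) + c0) / m := by
      have := @Nat.cast_div_le ℝ _ _ _ (n + c0) m
      push_cast at this
      exact this
    have h2 : (T : ℝ) = c1 * ((((n + c0) / m : ℕ) : ℝ) + 1) + c2 := by
      rw [hT]; push_cast; ring
    have h3 : (c1 : ℝ) * (((n : ℝ) + c0) / m) ≤ c / 2 * (n + c0) := by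
      have h0 : (0 : ℝ) ≤ n + c0 := by positivity
      calc (c1 : ℝ) * (((n : ℝ) + c0) / m) = (c1 : ℝ) / m * (n + c0) := by ring
        _ ≤ c / 2 * (n + c0) := mul_le_mul_of_nonneg_right hcm h0
    have h4 : (c1 : ℝ) * (((n + c0) / m : ℕ) : ℝ) ≤ c1 * (((n : ℝ) + c0) / m) :=
      mul_le_mul_of_nonneg_left h1 (by positivity)
    rw [div_lt_iff₀ (by positivity)] at hn3
    have h5 : (n3 : ℝ) ≤ n := by exact_mod_cast hle3
    rw [h2]
    nlinarith
  have hcount : ∀ w : ℂ, (∀ k ∈ {k | ‖partialSum f k r - w‖ < 1 / 2}, k ≤ n → k < T) →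
      (({k | ‖partialSum f k r - w‖ < 1 / 2} ∩ Iic n).ncard : ℝ) ≤ T := by
    intro w h
    have h1 : ({k | ‖partialSum f k r - w‖ < 1 / 2} ∩ Iic n).ncard ≤ (Iio T).ncard :=
      ncard_le_ncard (fun k hk => h k hk.1 hk.2) (finite_Iio T)
    have h2 : (Iio T).ncard = T := by
      rw [← Finset.coe_Iio, ncard_coe_finset, Nat.card_Iio]
    rw [h2] at h1
    exact_mod_cast h1
  have hnn : (0 : ℝ) ≤ (n : ℝ) + 1 := by positivity
  by_cases hex : ∃ k ∈ {k | ‖partialSum f k r - 1‖ < 1 / 2}, k ≤ n ∧ T ≤ k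
  · obtain ⟨k, hk, hkn, hTk⟩ := hex
    have h1 := hB k hTk hkn
    have hk' : ‖partialSum f k r - 1‖ < 1 / 2 := hk
    have h2 := hcount (-1) (fun j hj hjn => by
      by_contra hcon
      push Not at hcon
      have h3 := hB j hcon hjn
      have hj' : ‖partialSum f j r - -1‖ < 1 / 2 := hj
      have h4 : (2 : ℂ) = -(partialSum f k r - 1) - (partialSum f n r - partialSum f k r) +
          (partialSum f n r - partialSum f j r) + (partialSum f j r - -1) := by ring
      have h5 : ‖(2 : ℂ)‖ = 2 := by norm_num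
      rw [h4] at h5
      have h6 := norm_add_le (-(partialSum f k r - 1) - (partialSum f n r - partialSum f k r) +
          (partialSum f n r - partialSum f j r)) (partialSum f j r - -1)
      have h7 := norm_add_le (-(partialSum f k r - 1) - (partialSum f n r - partialSum f k r))
          (partialSum f n r - partialSum f j r)
      have h8 := norm_sub_le (-(partialSum f k r - 1)) (partialSum f n r - partialSum f k r)
      rw [norm_neg] at h8
      linarith)
    have h3 : c * (n + 1) ≤ b * (n + 1) := mul_le_mul_of_nonneg_right (min_le_right _ _) hnn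
    linarith
  · push Not at hex
    have h2 := hcount 1 (fun j hj hjn => hex j hj hjn)
    have h3 : c * (n + 1) ≤ a * (n + 1) := mul_le_mul_of_nonneg_right (min_le_left _ _) hnn
    linarith

end Pool.Agent.Results.MP_051359_an.AnnulusEmpty
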